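import Pool.Agent.Helper3.TL.St

/-! Project TL (MP_86d903), module FAM1 (helper80). -/

set_option autoImplicit false

open Finset
open MP86d903 (Valid Lit inside mem_inside pt flip Clause Ineq clauseIneq vsF ngF lit_congr lit_flip)
open Helper80.SR (Exp Closed Cl Sm)
open Helper3.TL

namespace Helper80.TL

section
variable {ι V : Type} [DecidableEq ι] [Fintype V] [DecidableEq V] {vs ng : ι → Finset V}

theorem not_lit_flip {A : Finset V} {σ : V → Bool} {c : ι} {j : V} (hj : j ∉ A)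
    (h : Lit ng σ c j) : ¬ Lit ng (flip A σ) c j := by
  unfold Lit MP86d903.flip at *
  rw [if_neg hj]
  cases hd : decide (j ∈ ng c) <;> cases hs : σ j <;> simp_all

theorem bal_flip {R R' : Finset V} {σ : V → Bool} (h : Bal vs ng R R' σ) :
    Bal vs ng R R' (flip R σ) := by
  intro c h1 h2
  obtain ⟨i, hi, j, hj, hli, hlj⟩ := h c h1 h2
  exact ⟨j, hj, i, hi, lit_flip (mem_sdiff.mp hj).2 hlj, not_lit_flip (mem_sdiff.mp hi).2 hli⟩

theorem sg_not (b : Bool) : sg (!b) = - sg b := by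
  cases b <;> simp [sg]

end

section
variable {V : Type} [Fintype V] [DecidableEq V]

theorem lv_ext {R R₁ : Finset V} {σ σ₁ : V → Bool} (h : R ⊆ R₁) (h' : ∀ i ∈ R, σ₁ i = σ i)
    (a : V → ℤ) (c : ℤ) : lv a c R₁ σ₁ = lv a c R σ + ∑ i ∈ R₁ \ R, a i * sg (σ₁ i) := by
  have h1 : ∀ i, a i * pt R₁ σ₁ i = a i * pt R σ i +
      if i ∈ R₁ \ R then a i * sg (σ₁ i) else 0 := by
    intro i
    by_cases hi : i ∈ R
    · have h2 : i ∉ R₁ \ R := fun h3 => (mem_sdiff.mp h3).2 hi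
      rw [if_neg h2]
      unfold pt
      rw [if_pos (h hi), if_pos hi, h' i hi, add_zero]
    · by_cases hi1 : i ∈ R₁
      · rw [if_pos (mem_sdiff.mpr ⟨hi1, hi⟩)]
        unfold pt sg
        rw [if_pos hi1, if_neg hi]
        cases σ₁ i <;> simp
        ring
      · have h2 : i ∉ R₁ \ R := fun h3 => hi1 (mem_sdiff.mp h3).1
        rw [if_neg h2]
        unfold pt
        rw [if_neg hi1, if_neg hi, add_zero]
  unfold lv
  rw [sum_congr rfl (fun i _ => h1 i), sum_add_distrib]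
  have h2 : ∑ i, (if i ∈ R₁ \ R then a i * sg (σ₁ i) else 0) = ∑ i ∈ R₁ \ R, a i * sg (σ₁ i) := by
    rw [← Finset.sum_filter]
    congr 1
    ext i
    simp
  rw [h2]
  ring

end

theorem hFam1 : StFam1 := by
  intro ι V _ _ _ _ vs ng q D κ A hE
  refine ⟨?_, ?_, ?_, ?_, ?_, ?_⟩
  · intro K K' R σ R₁ σ₁ R₂ σ₂ h1 h2
    refine ⟨h1.1.trans h2.1, h2.2.1, h2.2.2.1, ?_, ?_⟩
    · intro i hi
      rw [h2.2.2.2.1 i (h1.1 hi), h1.2.2.2.1 i hi]
    · intro c hc hcR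
      by_cases hc1 : vs c ⊆ R₁
      · obtain ⟨i, hi, j, hj, hli, hlj⟩ := h1.2.2.2.2 c hc1 hcR
        refine ⟨i, hi, j, hj, ?_, ?_⟩
        · exact lit_congr (h2.2.2.2.1 i (hc1 (mem_sdiff.mp hi).1)).symm hli
        · intro h
          exact hlj (lit_congr (h2.2.2.2.1 j (hc1 (mem_sdiff.mp hj).1)) h)
      · obtain ⟨i, hi, j, hj, hli, hlj⟩ := h2.2.2.2.2 c hc hc1
        have hs : vs c \ R₁ ⊆ vs c \ R := sdiff_subset_sdiff (subset_refl _) h1.1
        exact ⟨i, hs hi, j, hs hj, hli, hlj⟩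
  · intro K R σ R₁ σ₁ h
    refine ⟨h.1, h.2.1, h.2.2.1, ?_, bal_flip h.2.2.2.2⟩
    intro i hi
    unfold MP86d903.flip
    rw [if_pos hi]
    exact h.2.2.2.1 i hi
  · intro K K' R σ R₁ σ₁ R₂ h hcl hR hR₂ hK
    exact ⟨hR, hcl, hK, h.2.2.2.1, fun c hc hcR => h.2.2.2.2 c (hc.trans hR₂) hcR⟩
  · intro K R σ R₁ hAR hR hRR₁ hR₁ hK hKκ
    obtain ⟨M₀, R₀, hExp, hq, hR₀, hA⟩ := hE.big
    have hc1 : R₁.card ≤ A.card + (R₁ \ A).card := by
      have h1 : (R₁ \ A).card + A.card = R₁.card :=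
        card_sdiff_add_card_eq_card (hAR.trans hRR₁)
      omega
    have hin := Helper80.SR.card_inside_le hExp R₁ (by omega)
    set 𝒮 := inside vs R₁ \ inside vs R with h𝒮
    have hnot : ∀ c ∈ 𝒮, ¬ vs c ⊆ R := by
      intro c hc h
      exact (mem_sdiff.mp hc).2 (mem_inside.mpr h)
    obtain ⟨σ₁, hσR, hσ⟩ := Helper80.SR.seymour (vs := vs) (ng := ng) R σ 𝒮 (by
      intro S hS hne
      refine hR S hne ?_ (fun c hc => hnot c (hS hc))
      have h1 := card_le_card (hS.trans sdiff_subset)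
      omega)
    refine ⟨σ₁, hRR₁, hR₁, hK, hσR, ?_⟩
    intro c hc hcR
    exact hσ c (mem_sdiff.mpr ⟨mem_inside.mpr hc, fun h => hcR (mem_inside.mp h)⟩)
  · intro K R σ R₁ σ₁ a c h
    refine ⟨lv_ext h.1 h.2.2.2.1 a c, ?_⟩
    rw [lv_ext h.1 (σ := σ) (σ₁ := MP86d903.flip R σ₁) ?_ a c, sub_eq_add_neg, ← sum_neg_distrib]
    · congr 1
      refine sum_congr rfl (fun i hi => ?_)
      unfold MP86d903.flip
      rw [if_neg (mem_sdiff.mp hi).2, sg_not]
      ring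
    · intro i hi
      unfold MP86d903.flip
      rw [if_pos hi]
      exact h.2.2.2.1 i hi
  · intro K R σ R₁ σ₁ h hv c hc
    by_cases hcR : vs c ⊆ R
    · obtain ⟨i, hi, hl⟩ := hv c hcR
      exact ⟨i, hi, lit_congr (h.2.2.2.1 i (hcR hi)).symm hl⟩
    · obtain ⟨i, hi, j, hj, hli, hlj⟩ := h.2.2.2.2 c hc hcR
      exact ⟨i, (mem_sdiff.mp hi).1, hli⟩

end Helper80.TL
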