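import Pool.Agent.Helper3.TL.St

/-! Project TL (MP_86d903), module FAM2 (helper80). -/

set_option autoImplicit false

open Finset
open MP86d903 (Valid Lit inside mem_inside pt flip Clause Ineq clauseIneq vsF ngF)
open Helper80.SR (Exp Closed Cl Sm subset_Cl)
open Helper3.TL

namespace Helper80.TL

section
variable {ι V : Type} [DecidableEq ι] [Fintype ι] [DecidableEq V] [Fintype V]
  {vs : ι → Finset V} {q D κ : ℕ} {A : Finset V}

theorem class_eq (hE : Env vs q D κ A) {R : Finset V} (hAR : A ⊆ R) (hR : Closed vs q R)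
    (hκ : (R \ A).card ≤ κ) {i j : V} (hj : j ∈ Cl vs q (insert i R)) (hjR : j ∉ R) :
    Cl vs q (insert j R) = Cl vs q (insert i R) := by
  obtain ⟨M₀, R₀, hExp, hq, hR₀, hA⟩ := hE.big
  have hc1 : (R \ A).card + A.card = R.card := card_sdiff_add_card_eq_card hAR
  have hin := Helper80.SR.card_inside_le hExp R (by omega)
  have hsm : Sm vs M₀ R := ⟨by omega, hin⟩
  exact Helper80.SR.cl_class hExp hR₀ hq hR hsm hj hjR

end

theorem hFam2 : StFam2 := by
  intro ι V _ _ _ _ vs q D κ A hE
  refine ⟨fun R i j hAR hR hκ hj hjR => class_eq hE hAR hR hκ hj hjR, ?_⟩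
  intro R U f g hAR hR hκ hU hg
  rw [← sum_fiberwise_of_maps_to (s := U) (t := U.image (fun i => Cl vs q (insert i R)))
    (g := fun i => Cl vs q (insert i R)) (fun i hi => mem_image_of_mem _ hi) f]
  refine Finset.dvd_sum (fun C hC => ?_)
  obtain ⟨i, hi, rfl⟩ := mem_image.mp hC
  have h4 : U.filter (fun j => Cl vs q (insert j R) = Cl vs q (insert i R)) =
      Cl vs q (insert i R) \ R := by
    ext j
    simp only [mem_filter, mem_sdiff]
    constructor
    · rintro ⟨h5, h6⟩
      refine ⟨?_, (hU j h5).1⟩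
      rw [← h6]
      exact subset_Cl q _ (mem_insert_self _ _)
    · rintro ⟨h5, h6⟩
      exact ⟨(hU i hi).2 (mem_sdiff.mpr ⟨h5, h6⟩), class_eq hE hAR hR hκ h5 h6⟩
  rw [h4]
  exact hg i hi

end Helper80.TL
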