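import Pool.Agent.Helper3.TL.Basic
import Pool.Agent.Helper80.TL.M_FAM1
import Pool.Agent.Helper80.TL.M_FAM2

/-! Project TL (MP_86d903), module FAM3 (helper80). -/

set_option autoImplicit false

open Finset
open MP86d903 (Valid Lit inside mem_inside pt flip Clause Ineq clauseIneq vsF ngF)
open Helper80.SR (Exp Closed Cl Sm subset_Cl closed_Cl)
open Helper3.TL

namespace Helper80.TL

section
variable {V : Type} [Fintype V] [DecidableEq V]

theorem even_sub_sg (a : V → ℤ) (s : V → Bool) (U : Finset V) :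
    Even (∑ j ∈ U, a j - ∑ j ∈ U, a j * sg (s j)) := by
  rw [← sum_sub_distrib]
  refine Finset.even_sum _ (fun j _ => ?_)
  unfold sg
  cases s j
  · exact ⟨a j, by simp⟩
  · simp

end

theorem hFam3 : StFam3 := by
  intro ι V _ _ _ _ vs ng q D κ A R σ K a a' c c' g g' hE hAR hR hK hKκ hc hc' hcl
  obtain ⟨-, -, -, hex, -, -⟩ := hFam1 ι V vs ng q D κ A hE
  have hRκ : (R \ A).card ≤ κ := by omega
  have key : ∀ C ∈ Rᶜ.image (fun i => Cl vs q (insert i R)), ∃ y : ℤ,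
      Even (∑ j ∈ C \ R, a j - g * y) ∧ Even (∑ j ∈ C \ R, a' j - g' * y) := by
    intro C hC
    obtain ⟨i, hi, rfl⟩ := mem_image.mp hC
    rw [mem_compl] at hi
    obtain ⟨σ₁, hσ₁⟩ := hex K R σ (Cl vs q (insert i R)) hAR hR (subset_cl_insert i R)
      (closed_Cl q _) ((card_class hClo1 hE hAR i le_rfl (by omega)).trans hK) hKκ
    obtain ⟨y, hy1, hy2⟩ := hcl i hi σ₁ hσ₁
    refine ⟨y, ?_, ?_⟩
    · rw [← hy1]
      exact even_sub_sg a σ₁ _
    · rw [← hy2]
      exact even_sub_sg a' σ₁ _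
  choose! y hy using key
  have hfib : ∀ f : V → ℤ, ∑ i ∈ Rᶜ, f i =
      ∑ C ∈ Rᶜ.image (fun i => Cl vs q (insert i R)), ∑ j ∈ C \ R, f j := by
    intro f
    rw [← sum_fiberwise_of_maps_to (s := Rᶜ) (t := Rᶜ.image (fun i => Cl vs q (insert i R)))
      (g := fun i => Cl vs q (insert i R)) (fun i hi => mem_image_of_mem _ hi) f]
    refine sum_congr rfl (fun C hC => ?_)
    obtain ⟨i, hi, rfl⟩ := mem_image.mp hC
    congr 1
    ext j
    simp only [mem_filter, mem_sdiff, mem_compl]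
    constructor
    · rintro ⟨h5, h6⟩
      refine ⟨?_, h5⟩
      rw [← h6]
      exact subset_Cl q _ (mem_insert_self _ _)
    · rintro ⟨h5, h6⟩
      exact ⟨h6, class_eq hE hAR hR hRκ h5 h6⟩
  have hfin : ∀ (f : V → ℤ) (b h : ℤ), Odd b →
      (∀ C ∈ Rᶜ.image (fun i => Cl vs q (insert i R)), Even (∑ j ∈ C \ R, f j - h * y C)) →
      Even (lv f b R σ + 1 + h * ∑ C ∈ Rᶜ.image (fun i => Cl vs q (insert i R)), y C) := by
    intro f b h hb hev
    have h1 : Even (∑ i ∈ Rᶜ, f i -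
        h * ∑ C ∈ Rᶜ.image (fun i => Cl vs q (insert i R)), y C) := by
      rw [hfib f, mul_sum, ← sum_sub_distrib]
      exact Finset.even_sum _ hev
    unfold lv
    rw [MP86d903.sum_pt_eq]
    obtain ⟨r, hr⟩ := h1
    obtain ⟨t, ht⟩ := hb
    refine ⟨∑ i ∈ R, f i * (if σ i then 1 else 0) + r + t + 1 +
      h * ∑ C ∈ Rᶜ.image (fun i => Cl vs q (insert i R)), y C, ?_⟩
    linarith
  exact ⟨∑ C ∈ Rᶜ.image (fun i => Cl vs q (insert i R)), y C,
    hfin a c g hc (fun C hC => (hy C hC).1), hfin a' c' g' hc' (fun C hC => (hy C hC).2)⟩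

end Helper80.TL
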