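import Pool.Agent.Helper3.TL.St

/-! Project TL (MP_86d903), module FAR1 (helper80). -/

set_option autoImplicit false

open Finset
open MP86d903 (Valid Lit inside mem_inside pt flip Clause Ineq clauseIneq vsF ngF)
open Helper80.SR (Exp Closed Cl Sm)
open Helper3.TL

namespace Helper80.TL

section
variable {ι V : Type} [DecidableEq ι] [Fintype ι] [DecidableEq V] [Fintype V]
  {vs : ι → Finset V} {A : Finset V}

theorem mem_nb {X : Finset V} {v : V} :
    v ∈ nb vs A X ↔ v ∈ X ∨ ((∃ c, (∃ x ∈ vs c, x ∈ X) ∧ v ∈ vs c) ∧ v ∉ A) := by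
  unfold nb
  rw [mem_union, mem_sdiff, mem_biUnion]
  constructor
  · rintro (h | ⟨⟨c, hc, hv⟩, hA⟩)
    · exact Or.inl h
    · rw [mem_filter, Finset.not_disjoint_iff] at hc
      obtain ⟨-, x, hx, hxX⟩ := hc
      exact Or.inr ⟨⟨c, ⟨x, hx, hxX⟩, hv⟩, hA⟩
  · rintro (h | ⟨⟨c, ⟨x, hx, hxX⟩, hv⟩, hA⟩)
    · exact Or.inl h
    · refine Or.inr ⟨⟨c, ?_, hv⟩, hA⟩
      rw [mem_filter, Finset.not_disjoint_iff]
      exact ⟨mem_univ _, x, hx, hxX⟩

theorem nb_mono {X Y : Finset V} (h : X ⊆ Y) : nb vs A X ⊆ nb vs A Y := by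
  intro v hv
  rw [mem_nb] at hv ⊢
  rcases hv with h1 | ⟨⟨c, ⟨x, hx, hxX⟩, hv⟩, hA⟩
  · exact Or.inl (h h1)
  · exact Or.inr ⟨⟨c, ⟨x, hx, h hxX⟩, hv⟩, hA⟩

theorem subset_nb (X : Finset V) : X ⊆ nb vs A X := fun _ hv => mem_nb.mpr (Or.inl hv)

theorem near_succ (l : ℕ) (X : Finset V) : near vs A (l + 1) X = nb vs A (near vs A l X) := by
  unfold near
  rw [Function.iterate_succ_apply']

theorem near_zero (X : Finset V) : near vs A 0 X = X := rfl

theorem near_mono_left (l : ℕ) {X Y : Finset V} (h : X ⊆ Y) : near vs A l X ⊆ near vs A l Y := by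
  induction l with
  | zero => exact h
  | succ l ih =>
    rw [near_succ, near_succ]
    exact nb_mono ih

theorem near_mono_right {l l' : ℕ} (h : l ≤ l') (X : Finset V) :
    near vs A l X ⊆ near vs A l' X := by
  induction h with
  | refl => exact subset_refl _
  | step _ ih =>
    rw [near_succ]
    exact ih.trans (subset_nb _)

theorem near_disj (l : ℕ) {X : Finset V} (h : Disjoint X A) : Disjoint (near vs A l X) A := by
  induction l with
  | zero => exact h
  | succ l ih =>
    rw [near_succ, Finset.disjoint_left]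
    intro v hv
    rcases mem_nb.mp hv with h1 | ⟨_, h1⟩
    · exact Finset.disjoint_left.mp ih h1
    · exact h1

theorem card_nb {D : ℕ} (h3 : ∀ c, (vs c).card = 3)
    (hdeg : ∀ i ∉ A, (univ.filter (fun c => i ∈ vs c)).card ≤ D) {X : Finset V}
    (h : Disjoint X A) : (nb vs A X).card ≤ X.card * (2 * D + 1) := by
  have hsub : nb vs A X ⊆ X ∪ X.biUnion (fun x =>
      (univ.filter (fun c => x ∈ vs c)).biUnion (fun c => (vs c).erase x)) := by
    intro v hv
    rcases mem_nb.mp hv with h1 | ⟨⟨c, ⟨x, hx, hxX⟩, hv⟩, hA⟩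
    · exact mem_union_left _ h1
    · by_cases hvx : v = x
      · rw [hvx]
        exact mem_union_left _ hxX
      · refine mem_union_right _ (mem_biUnion.mpr ⟨x, hxX, mem_biUnion.mpr ⟨c, ?_, ?_⟩⟩)
        · exact mem_filter.mpr ⟨mem_univ _, hx⟩
        · exact mem_erase.mpr ⟨hvx, hv⟩
  have h1 : (X.biUnion (fun x =>
      (univ.filter (fun c => x ∈ vs c)).biUnion (fun c => (vs c).erase x))).card ≤
      X.card * (D * 2) := by
    refine card_biUnion_le_card_mul _ _ _ (fun x hx => ?_)
    have h2 : ((univ.filter (fun c => x ∈ vs c)).biUnion (fun c => (vs c).erase x)).card ≤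
        (univ.filter (fun c => x ∈ vs c)).card * 2 := by
      refine card_biUnion_le_card_mul _ _ _ (fun c hc => ?_)
      rw [card_erase_of_mem (mem_filter.mp hc).2, h3 c]
    refine h2.trans (Nat.mul_le_mul_right 2 (hdeg x ?_))
    exact Finset.disjoint_left.mp h hx
  have h2 := (card_le_card hsub).trans (card_union_le _ _)
  have h3 : X.card * (2 * D + 1) = X.card + X.card * (D * 2) := by ring
  omega

end

theorem hFar1 : StFar1 := by
  intro ι V _ _ _ _ vs q D κ A X l hE hXA
  refine ⟨?_, near_disj l hXA, near_mono_right (Nat.zero_le l) X, ?_⟩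
  · induction l with
    | zero => simp [near_zero]
    | succ l ih =>
      rw [near_succ]
      have h1 := card_nb (vs := vs) hE.three hE.deg (near_disj (vs := vs) l hXA)
      refine h1.trans ?_
      rw [pow_succ, ← mul_assoc]
      exact Nat.mul_le_mul_right _ ih
  · intro Y l' hXY hl
    exact (near_mono_left l hXY).trans (near_mono_right hl Y)

end Helper80.TL
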