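import Pool.Agent.Helper80.TL.M_FAR1

/-! Project TL (MP_86d903), module FAR2 (helper80). -/

set_option autoImplicit false

open Finset
open MP86d903 (Valid Lit inside mem_inside pt flip Clause Ineq clauseIneq vsF ngF)
open Helper80.SR (Exp Closed Cl Sm)
open Helper3.TL

namespace Helper80.TL

theorem hFar2 : StFar2 := by
  intro ι V _ _ _ _ vs q D κ A R U M m hE hAR hR hM hUA hm hAU hfar
  have hstep : ∀ (j : ℕ), j ≤ 2 * (M + m) + 2 → ∀ v ∈ U, v ∉ near vs A j (R \ A) := by
    intro j hj v hv hv'
    exact Finset.disjoint_left.mp hfar hv (near_mono_right hj _ hv')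
  refine ⟨?_, ?_⟩
  · intro S hS hq hc
    by_contra hcon
    rw [not_lt] at hcon
    set Y := S.biUnion vs with hY
    have hcA : ∀ c ∈ S, ¬ vs c ⊆ A := fun c hcS h => hc c hcS (h.trans (hAR.trans subset_union_left))
    have h1 := hE.closed S hS hq hcA
    have h2 : (Y \ A).card ≤ (Y \ (R ∪ U)).card + (R \ A).card + U.card := by
      have hsub : Y \ A ⊆ (Y \ (R ∪ U)) ∪ (R \ A) ∪ U := by
        intro v hv
        obtain ⟨hv1, hv2⟩ := mem_sdiff.mp hv
        by_cases hvU : v ∈ U
        · exact mem_union_right _ hvU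
        · by_cases hvR : v ∈ R
          · exact mem_union_left _ (mem_union_right _ (mem_sdiff.mpr ⟨hvR, hv2⟩))
          · refine mem_union_left _ (mem_union_left _ (mem_sdiff.mpr ⟨hv1, ?_⟩))
            intro h
            rcases mem_union.mp h with h | h
            · exact hvR h
            · exact hvU h
      have h3 := (card_le_card hsub).trans (card_union_le _ _)
      have h4 := card_union_le (Y \ (R ∪ U)) (R \ A)
      omega
    have hSc : S.card ≤ 2 * (M + m) := by
      rw [← hY] at h1
      omega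
    set Sj : ℕ → Finset ι := fun j => S.filter (fun c => ¬ Disjoint (vs c) (near vs A j (R \ A)))
      with hSj
    have hmono : ∀ j, Sj j ⊆ Sj (j + 1) := by
      intro j c hc'
      obtain ⟨h3, h4⟩ := mem_filter.mp hc'
      refine mem_filter.mpr ⟨h3, fun h5 => h4 ?_⟩
      exact Disjoint.mono_right (near_mono_right (Nat.le_succ j) _) h5
    obtain ⟨j, hj, hjeq⟩ : ∃ j, j ≤ 2 * (M + m) ∧ Sj j = Sj (j + 1) := by
      by_contra hno
      push Not at hno
      have h5 : ∀ k, k ≤ 2 * (M + m) + 1 → k ≤ (Sj k).card := by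
        intro k
        induction k with
        | zero => intro _; exact Nat.zero_le _
        | succ k ih =>
          intro hk
          have h6 := ih (by omega)
          have h7 : Sj k ⊂ Sj (k + 1) := (hmono k).ssubset_of_ne (hno k (by omega))
          have h8 := card_lt_card h7
          omega
      have h6 := h5 (2 * (M + m) + 1) le_rfl
      have h7 : (Sj (2 * (M + m) + 1)).card ≤ S.card := card_le_card (filter_subset _ _)
      omega
    have hcard : (Sj j).card + (S.filter (fun c => ¬ ¬ Disjoint (vs c) (near vs A j (R \ A)))).card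
        = S.card := Finset.card_filter_add_card_filter_not _
    set S2 := S.filter (fun c => ¬ ¬ Disjoint (vs c) (near vs A j (R \ A))) with hS2
    have hin : ∀ c ∈ Sj j, ∀ v ∈ vs c, v ∉ A → v ∈ near vs A (j + 1) (R \ A) := by
      intro c hc' v hv hvA
      obtain ⟨_, h4⟩ := mem_filter.mp hc'
      obtain ⟨x, hx, hxX⟩ := Finset.not_disjoint_iff.mp h4
      rw [near_succ]
      exact mem_nb.mpr (Or.inr ⟨⟨c, ⟨x, hx, hxX⟩, hv⟩, hvA⟩)
    have hout : ∀ c ∈ S2, ∀ v ∈ vs c, v ∉ near vs A (j + 1) (R \ A) := by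
      intro c hc' v hv hvX
      obtain ⟨h3, h4⟩ := mem_filter.mp hc'
      have h5 : c ∈ Sj (j + 1) :=
        mem_filter.mpr ⟨h3, Finset.not_disjoint_iff.mpr ⟨v, hv, hvX⟩⟩
      rw [← hjeq] at h5
      exact h4 (mem_filter.mp h5).2
    have hD1 : (Sj j).biUnion vs \ R ⊆ Y \ (R ∪ U) := by
      intro v hv
      obtain ⟨hv1, hv2⟩ := mem_sdiff.mp hv
      obtain ⟨c, hc', hvc⟩ := mem_biUnion.mp hv1
      refine mem_sdiff.mpr ⟨mem_biUnion.mpr ⟨c, (mem_filter.mp hc').1, hvc⟩, fun h => ?_⟩
      rcases mem_union.mp h with h | h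
      · exact hv2 h
      · exact hstep (j + 1) (by omega) v h (hin c hc' v hvc (fun h' => hv2 (hAR h')))
    have hD2 : S2.biUnion vs \ (A ∪ U) ⊆ Y \ (R ∪ U) := by
      intro v hv
      obtain ⟨hv1, hv2⟩ := mem_sdiff.mp hv
      obtain ⟨c, hc', hvc⟩ := mem_biUnion.mp hv1
      refine mem_sdiff.mpr ⟨mem_biUnion.mpr ⟨c, (mem_filter.mp hc').1, hvc⟩, fun h => ?_⟩
      rcases mem_union.mp h with h | h
      · refine hout c hc' v hvc (near_mono_right (Nat.zero_le _) _ ?_)
        exact mem_sdiff.mpr ⟨h, fun h' => hv2 (mem_union_left _ h')⟩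
      · exact hv2 (mem_union_right _ h)
    have hdisj : Disjoint ((Sj j).biUnion vs \ R) (S2.biUnion vs \ (A ∪ U)) := by
      rw [Finset.disjoint_left]
      intro v hv hv'
      obtain ⟨hv1, hv2⟩ := mem_sdiff.mp hv
      obtain ⟨c, hc', hvc⟩ := mem_biUnion.mp hv1
      obtain ⟨hv3, _⟩ := mem_sdiff.mp hv'
      obtain ⟨c2, hc2, hvc2⟩ := mem_biUnion.mp hv3
      exact hout c2 hc2 v hvc2 (hin c hc' v hvc (fun h' => hv2 (hAR h')))
    have hle : ((Sj j).biUnion vs \ R).card + (S2.biUnion vs \ (A ∪ U)).card ≤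
        (Y \ (R ∪ U)).card := by
      rw [← card_union_of_disjoint hdisj]
      exact card_le_card (union_subset hD1 hD2)
    have hs1 : (Sj j).Nonempty → (Sj j).card < ((Sj j).biUnion vs \ R).card := by
      intro h
      refine hR _ h ((card_le_card (filter_subset _ _)).trans hq) (fun c hc' h' => ?_)
      exact hc c (mem_filter.mp hc').1 (h'.trans subset_union_left)
    have hs2 : S2.Nonempty → S2.card < (S2.biUnion vs \ (A ∪ U)).card := by
      intro h
      refine hAU _ h ((card_le_card (filter_subset _ _)).trans hq) (fun c hc' h' => ?_)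
      exact hc c (mem_filter.mp hc').1 (h'.trans (union_subset_union_left hAR))
    have hpos := card_pos.mpr hS
    rcases (Sj j).eq_empty_or_nonempty with he | hn
    · have h0 : (Sj j).card = 0 := by rw [he, card_empty]
      have : S2.Nonempty := by
        rw [← card_pos]
        omega
      have := hs2 this
      omega
    · have h3 := hs1 hn
      rcases S2.eq_empty_or_nonempty with he | hn2
      · have h0 : S2.card = 0 := by rw [he, card_empty]
        omega
      · have := hs2 hn2
        omega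
  · intro c hc
    by_contra hno
    push Not at hno
    obtain ⟨h1, h2⟩ := hno
    obtain ⟨u, hu, huR⟩ := Finset.not_subset.mp h1
    obtain ⟨r, hr, hrAU⟩ := Finset.not_subset.mp h2
    have huU : u ∈ U := by
      rcases mem_union.mp (hc hu) with h | h
      · exact absurd h huR
      · exact h
    have hrR : r ∈ R := by
      rcases mem_union.mp (hc hr) with h | h
      · exact h
      · exact absurd (mem_union_right _ h) hrAU
    refine hstep 1 (by omega) u huU ?_
    have h3 : u ∈ nb vs A (R \ A) := by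
      refine mem_nb.mpr (Or.inr ⟨⟨c, ⟨r, hr, ?_⟩, hu⟩, Finset.disjoint_left.mp hUA huU⟩)
      exact mem_sdiff.mpr ⟨hrR, fun h' => hrAU (mem_union_left _ h')⟩
    have h4 := near_succ (vs := vs) (A := A) 0 (R \ A)
    rw [near_zero] at h4
    rw [h4]
    exact h3

end Helper80.TL
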