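import Pool.Agent.Helper3.TL.Basic
import Pool.Agent.Helper80.TL.M_FAR2
import Pool.Agent.Helper80.TL.M_FAM1

/-! Project TL (MP_86d903), modules FAM4 and ADJ1 (helper80). -/

set_option autoImplicit false

open Finset
open MP86d903 (Valid Lit inside mem_inside pt flip Clause Ineq clauseIneq vsF ngF lit_congr lit_flip)
open Helper80.SR (Exp Closed Cl Sm subset_Cl closed_Cl Cl_subset)
open Helper3.TL

namespace Helper80.TL

section
variable {ι V : Type} [DecidableEq ι] [Fintype ι] [DecidableEq V] [Fintype V]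
  {vs : ι → Finset V} {A : Finset V}

theorem disj_of_near {R U : Finset V} {l : ℕ} (hUA : Disjoint U A)
    (h : Disjoint U (near vs A l (R \ A))) : Disjoint U R := by
  rw [Finset.disjoint_left]
  intro v hv hvR
  refine Finset.disjoint_left.mp h hv (near_mono_right (Nat.zero_le l) _ ?_)
  exact mem_sdiff.mpr ⟨hvR, Finset.disjoint_left.mp hUA hv⟩

end

theorem hFam4 : StFam4 := by
  intro ι V _ _ _ _ vs ng q D κ A R σ M K i hE hκ hAR hR hM hiR hfar
  have hcard : (Cl vs q (insert i A) \ A).card ≤ 3 := card_class_le hClo1 hE i hκ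
  have hWA : Disjoint (Cl vs q (insert i A) \ A) A := sdiff_disjoint
  have hWR : Disjoint (Cl vs q (insert i A) \ A) R := disj_of_near hWA hfar
  have hAW : A ∪ (Cl vs q (insert i A) \ A) = Cl vs q (insert i A) := union_class i
  have hclAW : Closed vs q (A ∪ (Cl vs q (insert i A) \ A)) := by
    rw [hAW]
    exact closed_Cl q _
  obtain ⟨hclRW, -⟩ := hFar2 ι V vs q D κ A R (Cl vs q (insert i A) \ A) M 3 hE hAR hR hM hWA
    hcard hclAW hfar
  have hiA : i ∉ A := fun h => hiR (hAR h)
  have hiW : i ∈ Cl vs q (insert i A) \ A := mem_sdiff.mpr ⟨mem_cl_insert i A, hiA⟩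
  have heq : Cl vs q (insert i R) = R ∪ (Cl vs q (insert i A) \ A) := by
    apply Subset.antisymm
    · refine Cl_subset hclRW ?_
      intro v hv
      rcases mem_insert.mp hv with h | h
      · rw [h]
        exact mem_union_right _ hiW
      · exact mem_union_left _ h
    · refine union_subset (subset_cl_insert i R) ?_
      refine sdiff_subset.trans (Cl_subset (closed_Cl q _) ?_)
      intro v hv
      rcases mem_insert.mp hv with h | h
      · rw [h]
        exact mem_cl_insert i R
      · exact subset_cl_insert i R (hAR h)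
  refine ⟨hcard, hWR, heq, ?_⟩
  intro σ₁ h c hc hcA
  have hcR : ¬ vs c ⊆ R := by
    intro h'
    refine hcA (fun v hv => ?_)
    by_contra hvA
    exact Finset.disjoint_left.mp hWR (mem_sdiff.mpr ⟨hc hv, hvA⟩) (h' hv)
  have hc' : vs c ⊆ Cl vs q (insert i R) := by
    rw [heq]
    intro v hv
    by_cases hvA : v ∈ A
    · exact mem_union_left _ (hAR hvA)
    · exact mem_union_right _ (mem_sdiff.mpr ⟨hc hv, hvA⟩)
  obtain ⟨i', hi', j', hj', hli, hlj⟩ := h.2.2.2.2 c hc' hcR
  have hs : vs c \ R ⊆ vs c \ A := sdiff_subset_sdiff (subset_refl _) hAR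
  exact ⟨i', hs hi', j', hs hj', hli, hlj⟩

theorem hAdj1 : StAdj1 := by
  intro ι V _ _ _ _ vs ng q D κ A R₁ U σ₁ s M m hE hAR hR hM hUA hm hAU hbal hfar b
  obtain ⟨hcl, hcls⟩ := hFar2 ι V vs q D κ A R₁ U M m hE hAR hR hM hUA hm hAU hfar
  have hUR : Disjoint U R₁ := disj_of_near hUA hfar
  -- the assignment on `U`
  set s' : V → Bool := fun i => if b then s i else !s i with hs'
  have hs'sg : ∀ i, sg (s' i) = sg b * sg (s i) := by
    intro i
    simp only [hs']
    cases b <;> cases s i <;> simp [sg]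
  set σ₂ : V → Bool := fun i => if i ∈ U then s' i else σ₁ i with hσ₂
  have hσ₂U : ∀ i ∈ U, σ₂ i = s' i := fun i hi => by simp only [hσ₂, if_pos hi]
  have hσ₂R : ∀ i ∈ R₁, σ₂ i = σ₁ i := fun i hi => by
    have h : i ∉ U := fun h => Finset.disjoint_left.mp hUR h hi
    simp only [hσ₂, if_neg h]
  have hbal' : Bal vs ng A (A ∪ U) s' := by
    cases b
    · intro c h1 h2
      obtain ⟨i, hi, j, hj, hli, hlj⟩ := bal_flip hbal c h1 h2
      have hfl : ∀ v, v ∈ vs c \ A → MP86d903.flip A s v = s' v := by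
        intro v hv
        unfold MP86d903.flip
        rw [if_neg (mem_sdiff.mp hv).2]
        simp [hs']
      exact ⟨i, hi, j, hj, lit_congr (hfl i hi) hli, fun h => hlj (lit_congr (hfl j hj).symm h)⟩
    · simpa [hs'] using hbal
  have hbalR : Bal vs ng R₁ (R₁ ∪ U) σ₂ := by
    intro c hc hcR
    have hcAU : vs c ⊆ A ∪ U := by
      rcases hcls c hc with h | h
      · exact absurd h hcR
      · exact h
    have hcA : ¬ vs c ⊆ A := fun h => hcR (h.trans hAR)
    obtain ⟨i, hi, j, hj, hli, hlj⟩ := hbal' c hcAU hcA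
    have hU : ∀ v, v ∈ vs c \ A → v ∈ U := by
      intro v hv
      rcases mem_union.mp (hcAU (mem_sdiff.mp hv).1) with h | h
      · exact absurd h (mem_sdiff.mp hv).2
      · exact h
    have hnR : ∀ v, v ∈ vs c \ A → v ∈ vs c \ R₁ := fun v hv =>
      mem_sdiff.mpr ⟨(mem_sdiff.mp hv).1, fun h => Finset.disjoint_left.mp hUR (hU v hv) h⟩
    exact ⟨i, hnR i hi, j, hnR j hj, lit_congr (hσ₂U i (hU i hi)).symm hli,
      fun h => hlj (lit_congr (hσ₂U j (hU j hj)) h)⟩
  refine ⟨σ₂, ⟨subset_union_left, hcl, ?_, hσ₂R, hbalR⟩, ?_⟩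
  · have h1 : (R₁ ∪ U) \ A ⊆ (R₁ \ A) ∪ U := by
      intro v hv
      obtain ⟨h2, h3⟩ := mem_sdiff.mp hv
      rcases mem_union.mp h2 with h | h
      · exact mem_union_left _ (mem_sdiff.mpr ⟨h, h3⟩)
      · exact mem_union_right _ h
    have h2 := (card_le_card h1).trans (card_union_le _ _)
    omega
  · intro a c
    rw [lv_ext (subset_union_left) hσ₂R a c]
    have h1 : (R₁ ∪ U) \ R₁ = U := by
      rw [union_sdiff_left]
      exact sdiff_eq_self_of_disjoint hUR
    rw [h1, mul_sum]
    congr 1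
    refine sum_congr rfl (fun i hi => ?_)
    rw [hσ₂U i hi, hs'sg i]
    ring

end Helper80.TL
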