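import Pool.Agent.Helper3.TL.Defs
import Pool.Agent.Helper80.CP.Det

/-! Project TL (MP_86d903), numerics and degrees (helper80). -/

set_option autoImplicit false

open Finset Filter Topology
open MP86d903 (Clause vsF vsF_card)

namespace Helper80.TL

theorem card_high {n m : ℕ} (F : Fin m → Clause n) (D : ℕ) :
    (D + 1) * (univ.filter (fun i : Fin n =>
      D < (univ.filter (fun c => i ∈ vsF F c)).card)).card ≤ 3 * m := by
  have h1 : ∑ i : Fin n, (univ.filter (fun c => i ∈ vsF F c)).card = 3 * m := by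
    have h2 : ∀ i : Fin n, (univ.filter (fun c => i ∈ vsF F c)).card =
        ∑ c : Fin m, if i ∈ vsF F c then 1 else 0 := fun i => card_filter _ _
    rw [sum_congr rfl (fun i _ => h2 i), sum_comm]
    have h3 : ∀ c : Fin m, (∑ i : Fin n, if i ∈ vsF F c then 1 else 0) = 3 := by
      intro c
      have h4 : (vsF F c).card = 3 := vsF_card F c
      rw [← Finset.card_filter, Finset.filter_mem_eq_inter, univ_inter, h4]
    rw [sum_congr rfl (fun c _ => h3 c)]
    simp [mul_comm]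
  rw [← h1, mul_comm]
  refine (Finset.card_nsmul_le_sum (univ.filter (fun i : Fin n =>
      D < (univ.filter (fun c => i ∈ vsF F c)).card))
      (fun i => (univ.filter (fun c => i ∈ vsF F c)).card) (D + 1) ?_).trans ?_
  · intro i hi
    exact (mem_filter.mp hi).2
  · exact sum_le_sum_of_subset (filter_subset _ _)

theorem numericT {r η Δ : ℝ} (hr : 0 < r) (hη : 0 < η) (hΔ : 0 < Δ) (κ : ℕ → ℕ) :
    ∃ (D : ℕ) (ε δ : ℝ), 0 < ε ∧ 0 < δ ∧ ∀ᶠ n : ℕ in atTop, ∃ w l h P M₀ K : ℕ,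
      4 * (M₀ + 1) ≤ ⌊r * n⌋₊ ∧ (M₀ : ℝ) ≤ η * n ∧
      3 * (P + 4 * κ D * K) + w + κ D ≤ M₀ ∧
      (∀ H : ℕ, ((D + 1) * H : ℝ) ≤ 3 * (Δ * n) → 2 * (3 * (l + w) + H) ≤ P) ∧
      ε * n ≤ w ∧ (∀ k : ℕ, ε * n ≤ k → w ≤ k) ∧ w ≤ n ∧ 74 * l ≤ w ∧ 1 ≤ δ * n ∧
      δ * n ≤ h ∧ δ * n + 1 ≤ K ∧ (2 : ℝ) ^ (δ * n) * (1 - w / (8 * n)) ^ l * 2 ^ h < 2 := by
  set θ : ℝ := min (r / 8) (η / 2) with hθ
  have hθ0 : 0 < θ := by
    rw [hθ]
    positivity
  have hθr : θ ≤ r / 8 := min_le_left _ _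
  have hθη : θ ≤ η / 2 := min_le_right _ _
  set D : ℕ := ⌈72 * Δ / θ⌉₊ with hD
  have hD1 : 72 * Δ ≤ θ * (D + 1) := by
    have h1 : 72 * Δ / θ ≤ D := Nat.le_ceil _
    rw [div_le_iff₀ hθ0] at h1
    linarith
  set ε : ℝ := min (θ / 200) (1 / 4) with hε
  have hε0 : 0 < ε := by
    rw [hε]
    positivity
  have hεθ : ε ≤ θ / 200 := min_le_left _ _
  have hε4 : ε ≤ 1 / 4 := min_le_right _ _
  set c : ℝ := (κ D : ℝ) with hc
  have hc0 : 0 ≤ c := by
    rw [hc]
    positivity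
  set δ : ℝ := min (ε ^ 2 / 2400) (θ / (200 * (c + 1))) with hδ
  have hδ0' : 0 < δ := by
    rw [hδ]
    positivity
  have hδ1 : δ ≤ ε ^ 2 / 2400 := min_le_left _ _
  have hδ2 : c * δ ≤ θ / 200 := by
    have h1 : δ ≤ θ / (200 * (c + 1)) := min_le_right _ _
    rw [le_div_iff₀ (by positivity)] at h1
    linarith
  refine ⟨D, ε, δ, hε0, hδ0', ?_⟩
  have hev : ∀ᶠ n : ℕ in atTop, 5 / ε + 10 / r + 400 / ε + 4 + (40 + 50 * c) / θ + 1 / δ ≤ (n : ℝ) :=
    tendsto_natCast_atTop_atTop.eventually_ge_atTop _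
  filter_upwards [hev] with n hn
  have q1 : 0 < 5 / ε := by positivity
  have q2 : 0 < 10 / r := by positivity
  have q3 : 0 < 400 / ε := by positivity
  have q4 : 0 < (40 + 50 * c) / θ := by positivity
  have q5 : 0 < 1 / δ := by positivity
  have h1 : 5 / ε ≤ n := by linarith
  have h2 : 10 / r ≤ n := by linarith
  have h3 : 400 / ε ≤ n := by linarith
  have h4 : (4 : ℝ) ≤ n := by linarith
  have h5 : (40 + 50 * c) / θ ≤ n := by linarith
  have h6 : 1 / δ ≤ n := by linarith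
  rw [div_le_iff₀ hε0] at h1 h3
  rw [div_le_iff₀ hr] at h2
  rw [div_le_iff₀ hθ0] at h5
  rw [div_le_iff₀ hδ0'] at h6
  have hn0 : (0 : ℝ) < n := by linarith
  have hδ0 : 0 < δ * n := by positivity
  set w := ⌈ε * n⌉₊ with hw
  set s := ⌈δ * n⌉₊ with hs
  have hw1 : ε * n ≤ w := Nat.le_ceil _
  have hw2 : (w : ℝ) < ε * n + 1 := Nat.ceil_lt_add_one (by positivity)
  have hs1 : δ * n ≤ s := Nat.le_ceil _
  have hs2 : (s : ℝ) < δ * n + 1 := Nat.ceil_lt_add_one hδ0.le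
  set t₀ := w / 74 with ht₀
  have ht1 : 74 * t₀ ≤ w := Nat.mul_div_le w 74
  have ht2 : w < 74 * t₀ + 74 := by
    rw [ht₀]
    omega
  have ht1' : (74 * t₀ : ℝ) ≤ w := by exact_mod_cast ht1
  have ht2' : (w : ℝ) < 74 * t₀ + 74 := by exact_mod_cast ht2
  set g := ⌊θ / 24 * n⌋₊ with hg
  have hg1 : (g : ℝ) ≤ θ / 24 * n := Nat.floor_le (by positivity)
  set M₀ := ⌊θ * n⌋₊ with hM₀
  have hM1 : (M₀ : ℝ) ≤ θ * n := Nat.floor_le (by positivity)
  have hM2 : θ * n < M₀ + 1 := Nat.lt_floor_add_one _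
  have hεn : ε * n ≤ θ / 200 * n := mul_le_mul_of_nonneg_right hεθ hn0.le
  have hcδn : c * (δ * n) ≤ θ / 200 * n := by
    have := mul_le_mul_of_nonneg_right hδ2 hn0.le
    linarith
  refine ⟨w, t₀, s, 6 * (t₀ + w) + 2 * g, M₀, s + 1, ?_, ?_, ?_, ?_, hw1, ?_, ?_, ht1, ?_, hs1,
    ?_, ?_⟩
  · rw [Nat.le_floor_iff (by positivity)]
    have h7 : θ * n ≤ r / 8 * n := mul_le_mul_of_nonneg_right hθr hn0.le
    push_cast
    linarith
  · have h7 : θ * n ≤ η / 2 * n := mul_le_mul_of_nonneg_right hθη hn0.le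
    have h8 : 0 < η * n := by positivity
    linarith
  · have h7 : ((3 * (6 * (t₀ + w) + 2 * g + 4 * κ D * (s + 1)) + w + κ D : ℕ) : ℝ) < M₀ + 1 := by
      push_cast
      rw [← hc]
      have h8 : c * s ≤ c * (δ * n) + c := by
        have := mul_le_mul_of_nonneg_left hs2.le hc0
        linarith
      linarith
    have h9 : 3 * (6 * (t₀ + w) + 2 * g + 4 * κ D * (s + 1)) + w + κ D < M₀ + 1 := by
      exact_mod_cast h7
    omega
  · intro H hH
    have h7 : (H : ℝ) ≤ θ / 24 * n := by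
      have h8 : ((D : ℝ) + 1) * H ≤ (D + 1) * (θ / 24 * n) := by
        have h9 := mul_le_mul_of_nonneg_right hD1 hn0.le
        linarith
      exact le_of_mul_le_mul_left h8 (by positivity)
    have h8 : H ≤ g := by
      rw [hg]
      exact Nat.le_floor h7
    omega
  · intro k hk
    exact Nat.ceil_le.mpr hk
  · have h5 : (w : ℝ) ≤ n := by
      have h7 : ε * n ≤ 1 / 4 * n := mul_le_mul_of_nonneg_right hε4 hn0.le
      linarith
    exact_mod_cast h5
  · linarith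
  · push_cast
    linarith
  · have h5 : (1 - (w : ℝ) / (8 * n)) ≤ Real.exp (-(ε / 8)) := by
      have h6 : ε / 8 ≤ (w : ℝ) / (8 * n) := by
        rw [div_le_div_iff₀ (by norm_num) (by positivity)]
        linarith
      have h7 := Real.add_one_le_exp (-(ε / 8))
      linarith
    have h5' : 0 ≤ 1 - (w : ℝ) / (8 * n) := by
      rw [sub_nonneg, div_le_one (by positivity)]
      have h7 : ε * n ≤ 1 / 4 * n := mul_le_mul_of_nonneg_right hε4 hn0.le
      linarith
    have h6 : (1 - (w : ℝ) / (8 * n)) ^ t₀ ≤ Real.exp (-(ε / 8) * t₀) := by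
      rw [mul_comm (-(ε / 8)) (t₀ : ℝ), Real.exp_nat_mul]
      exact pow_le_pow_left₀ h5' h5 _
    have h7 : (2 : ℝ) ^ (δ * n) ≤ Real.exp (δ * n) := by
      rw [Real.rpow_def_of_pos (by norm_num)]
      apply Real.exp_le_exp.mpr
      have h9 : Real.log 2 ≤ 1 := by linarith [Real.log_two_lt_d9]
      have h10 := mul_le_mul_of_nonneg_right h9 hδ0.le
      linarith
    have h8 : (2 : ℝ) ^ s ≤ 2 * Real.exp (δ * n) := by
      rw [← Real.rpow_natCast]
      calc (2 : ℝ) ^ (s : ℝ) ≤ 2 ^ (δ * n + 1) :=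
            Real.rpow_le_rpow_of_exponent_le (by norm_num) hs2.le
        _ = 2 ^ (δ * n) * 2 := by
            rw [Real.rpow_add (by norm_num), Real.rpow_one]
        _ ≤ 2 * Real.exp (δ * n) := by linarith
    calc (2 : ℝ) ^ (δ * n) * (1 - w / (8 * n)) ^ t₀ * 2 ^ s
        ≤ Real.exp (δ * n) * Real.exp (-(ε / 8) * t₀) * (2 * Real.exp (δ * n)) := by
          gcongr
      _ = 2 * Real.exp (δ * n + -(ε / 8) * t₀ + δ * n) := by
          rw [Real.exp_add, Real.exp_add]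
          ring
      _ < 2 * 1 := by
          have h9 : Real.exp (δ * n + -(ε / 8) * t₀ + δ * n) < 1 := by
            rw [Real.exp_lt_one_iff]
            have h10 : δ * n ≤ ε ^ 2 / 2400 * n := mul_le_mul_of_nonneg_right hδ1 hn0.le
            have h11 : ε * (ε * n) ≤ ε * (74 * t₀ + 74) :=
              mul_le_mul_of_nonneg_left (by linarith) hε0.le
            have h12 : ε * 400 ≤ ε * (n * ε) := mul_le_mul_of_nonneg_left h3 hε0.le
            have h13 : 0 < ε * (ε * n) := by positivity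
            linarith
          linarith
      _ = 2 := by ring

end Helper80.TL
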