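import Pool.Agent.Helper3.TL.St

/-! Project TL (MP_86d903), modules AX and RESET (helper80). -/

set_option autoImplicit false

open Finset
open MP86d903 (Valid Lit inside mem_inside pt flip Clause Ineq clauseIneq vsF ngF ngF_subset
  pt_nonneg pt_le_two)
open Helper80.SR (Exp Closed Cl Sm Fam Holds)
open Helper3.TL

namespace Helper80.TL

theorem clause_ok {n m : ℕ} (F : Fin m → Clause n) {q : ℕ} (hq : 1 ≤ q) {R : Finset (Fin n)}
    {σ : Fin n → Bool} (hcl : Closed (vsF F) q R) (hval : Valid (vsF F) (ngF F) σ R)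
    (c : Fin m) : 2 * (clauseIneq (F c)).rhs ≤ ∑ i, (clauseIneq (F c)).coef i * pt R σ i := by
  classical
  set a : Fin n → ℤ := (clauseIneq (F c)).coef with ha'
  have ha : ∀ i, a i = if i ∈ ngF F c then -1 else if i ∈ vsF F c then 1 else 0 := fun i => rfl
  have hb : (clauseIneq (F c)).rhs = 1 - (ngF F c).card := rfl
  have hng := ngF_subset F
  set lv : Fin n → ℤ := fun i => if i ∈ ngF F c then 2 - pt R σ i else pt R σ i with hlv
  have hsum : ∑ i, a i * pt R σ i = ∑ i ∈ vsF F c, lv i - 2 * (ngF F c).card := by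
    have h1 : ∀ i, a i * pt R σ i =
        (if i ∈ vsF F c then lv i else 0) - 2 * (if i ∈ ngF F c then 1 else 0) := by
      intro i
      rw [ha i]
      by_cases h1 : i ∈ ngF F c
      · rw [if_pos h1, if_pos (hng c h1), if_pos h1]
        simp only [hlv, if_pos h1]
        ring
      · rw [if_neg h1, if_neg h1]
        by_cases h2 : i ∈ vsF F c
        · rw [if_pos h2, if_pos h2]
          simp only [hlv, if_neg h1]
          ring
        · rw [if_neg h2, if_neg h2]
          ring
    rw [sum_congr rfl (fun i _ => h1 i), sum_sub_distrib, ← mul_sum]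
    simp
  have hlv0 : ∀ i, 0 ≤ lv i := by
    intro i
    simp only [hlv]
    have h1 := pt_nonneg R σ i
    have h2 := pt_le_two R σ i
    split_ifs <;> omega
  have hmain : 2 ≤ ∑ i ∈ vsF F c, lv i := by
    by_cases hcA : vsF F c ⊆ R
    · obtain ⟨i, hi, hl⟩ := hval c hcA
      have h2 : lv i = 2 := by
        simp only [hlv, pt, if_pos (hcA hi)]
        unfold Lit at hl
        by_cases h1 : i ∈ ngF F c
        · simp only [h1, decide_true, Bool.not_true] at hl
          simp [h1, hl]
        · simp only [h1, decide_false, Bool.not_false] at hl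
          simp [h1, hl]
      have := single_le_sum (f := lv) (fun j _ => hlv0 j) hi
      omega
    · have h1 := hcl {c} (singleton_nonempty _) (by rw [card_singleton]; exact hq) (by
        intro c' hc'
        rw [mem_singleton] at hc'
        rw [hc']
        exact hcA)
      rw [card_singleton, singleton_biUnion] at h1
      have h2 : ∀ i ∈ vsF F c \ R, lv i = 1 := by
        intro i hi
        have := (mem_sdiff.mp hi).2
        simp only [hlv, pt, if_neg this]
        split_ifs <;> norm_num
      have h3 : ∑ i ∈ vsF F c \ R, lv i ≤ ∑ i ∈ vsF F c, lv i :=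
        sum_le_sum_of_subset_of_nonneg sdiff_subset (fun i _ _ => hlv0 i)
      rw [sum_congr rfl h2] at h3
      simp only [sum_const, nsmul_eq_mul, mul_one] at h3
      have h4 : (2 : ℤ) ≤ ((vsF F c \ R).card : ℤ) := by
        have : 2 ≤ (vsF F c \ R).card := by omega
        exact_mod_cast this
      omega
  rw [hsum, hb]
  omega

theorem hAx : StAx := by
  intro n m F q R σ hq hcl hval
  refine ⟨?_, fun v => ⟨pt_nonneg R σ v, pt_le_two R σ v⟩⟩
  intro k hk
  unfold Viol at hk
  have := clause_ok F hq hcl hval k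
  omega

theorem hReset : StReset := by
  intro n m F q R₀ M w k l A₀ ρ₀ c s R σ hE hq hR₀ hcl0 hsm0 hM hlk hleg hsupp hAR hR hsm hval
    hag hviol
  by_contra hno
  push Not at hno
  obtain ⟨hc, hdvd, _⟩ := hleg
  have hH : Holds (vsF F) (ngF F) q A₀ ρ₀ (l + w) (s.line F).coef (s.line F).rhs := by
    intro R' σ' hF
    obtain ⟨h1, h2, h3, h4, h5⟩ := hF
    have h6 := hno R' σ' h2 h1 h3 h4 h5
    unfold Viol at h6
    push Not at h6
    exact h6
  have hN := Helper80.SR.holds_narrow (k := k) (a := (s.line F).coef) (b := (s.line F).rhs)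
    (a' := ((Tree.div c s).line F).coef) (b' := ((Tree.div c s).line F).rhs) (c := c)
    hE hq hR₀ hcl0 hsm0 hM hlk hc
    (fun i => (Int.mul_ediv_cancel' (hdvd i)).symm) rfl hsupp hH
  have h1 := hN R σ ⟨hR, hAR, hsm, hval, hag⟩
  unfold Viol at hviol
  omega

end Helper80.TL
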