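import Pool.Agent.Helper3.TL.St

/-! Project TL (MP_86d903), modules TREE1 and TREE2 (helper80). -/

set_option autoImplicit false

open Finset
open MP86d903 (Valid Lit inside mem_inside pt flip Clause Ineq clauseIneq vsF ngF)
open Helper3.TL

namespace Helper80.TL

variable {n m : ℕ}

theorem not_viol_lower (F : Fin m → Clause n) (v : Fin n) {y : Fin n → ℤ} (hy : AxOK F y) :
    ¬ Viol ((Tree.lower v : Tree n m).line F) y := by
  intro h
  unfold Viol at h
  have h1 : ∑ i, ((Tree.lower v : Tree n m).line F).coef i * y i = y v := by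
    rw [Finset.sum_eq_single v]
    · simp [Tree.line]
    · intro i _ hi
      simp [Tree.line, Pi.single_eq_of_ne hi]
    · intro h
      exact absurd (mem_univ v) h
  have h2 : ((Tree.lower v : Tree n m).line F).rhs = 0 := rfl
  rw [h1, h2] at h
  have := (hy.2 v).1
  omega

theorem not_viol_upper (F : Fin m → Clause n) (v : Fin n) {y : Fin n → ℤ} (hy : AxOK F y) :
    ¬ Viol ((Tree.upper v : Tree n m).line F) y := by
  intro h
  unfold Viol at h
  have h1 : ∑ i, ((Tree.upper v : Tree n m).line F).coef i * y i = - y v := by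
    rw [Finset.sum_eq_single v]
    · simp [Tree.line]
    · intro i _ hi
      simp [Tree.line, Pi.single_eq_of_ne hi]
    · intro h
      exact absurd (mem_univ v) h
  have h2 : ((Tree.upper v : Tree n m).line F).rhs = -1 := rfl
  rw [h1, h2] at h
  have := (hy.2 v).2
  omega

theorem viol_comb (F : Fin m → Clause n) (α β : ℕ) (s t : Tree n m) {y : Fin n → ℤ}
    (h : Viol ((Tree.comb α β s t).line F) y) : Viol (s.line F) y ∨ Viol (t.line F) y := by
  by_contra hno
  push Not at hno
  obtain ⟨h1, h2⟩ := hno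
  unfold Viol at h h1 h2
  push Not at h1 h2
  have e : ∑ v, ((Tree.comb α β s t).line F).coef v * y v =
      α * ∑ v, (s.line F).coef v * y v + β * ∑ v, (t.line F).coef v * y v := by
    rw [mul_sum, mul_sum, ← sum_add_distrib]
    refine sum_congr rfl (fun v _ => ?_)
    have : ((Tree.comb α β s t).line F).coef v =
      α * (s.line F).coef v + β * (t.line F).coef v := rfl
    rw [this]
    ring
  have e2 : ((Tree.comb α β s t).line F).rhs = α * (s.line F).rhs + β * (t.line F).rhs := rfl
  rw [e, e2] at h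
  have f1 := mul_le_mul_of_nonneg_left h1 (Int.natCast_nonneg α)
  have f2 := mul_le_mul_of_nonneg_left h2 (Int.natCast_nonneg β)
  linarith

theorem hTree1 : StTree1 := by
  intro n m F t X hne hax
  obtain ⟨y₀, hy₀⟩ := hne
  induction t with
  | clause k =>
    intro hv
    exact absurd (hv y₀ hy₀) ((hax y₀ hy₀).1 k)
  | lower v =>
    intro hv
    exact absurd (hv y₀ hy₀) (not_viol_lower F v (hax y₀ hy₀))
  | upper v =>
    intro hv
    exact absurd (hv y₀ hy₀) (not_viol_upper F v (hax y₀ hy₀))
  | comb α β s t ihs iht =>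
    intro hv
    by_cases h1 : ∃ y ∈ X, Viol (s.line F) y
    · by_cases h2 : ∃ y ∈ X, Viol (t.line F) y
      · exact Or.inl ⟨α, β, s, t, Tree.Sub.refl _, h1, h2⟩
      · have h3 : ∀ y ∈ X, Viol (s.line F) y := by
          intro y hy
          rcases viol_comb F α β s t (hv y hy) with h | h
          · exact h
          · exact absurd ⟨y, hy, h⟩ h2
        rcases ihs h3 with ⟨α', β', s₁, s₂, hs, h4⟩ | ⟨c, s', hs, h4⟩
        · exact Or.inl ⟨α', β', s₁, s₂, Tree.Sub.left α β s t hs, h4⟩
        · exact Or.inr ⟨c, s', Tree.Sub.left α β s t hs, h4⟩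
    · have h3 : ∀ y ∈ X, Viol (t.line F) y := by
        intro y hy
        rcases viol_comb F α β s t (hv y hy) with h | h
        · exact absurd ⟨y, hy, h⟩ h1
        · exact h
      rcases iht h3 with ⟨α', β', s₁, s₂, hs, h4⟩ | ⟨c, s', hs, h4⟩
      · exact Or.inl ⟨α', β', s₁, s₂, Tree.Sub.right α β s t hs, h4⟩
      · exact Or.inr ⟨c, s', Tree.Sub.right α β s t hs, h4⟩
  | div c t ih =>
    intro hv
    by_cases h1 : ∀ y ∈ X, Viol (t.line F) y
    · rcases ih h1 with ⟨α', β', s₁, s₂, hs, h4⟩ | ⟨c', s', hs, h4⟩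
      · exact Or.inl ⟨α', β', s₁, s₂, Tree.Sub.down c t hs, h4⟩
      · exact Or.inr ⟨c', s', Tree.Sub.down c t hs, h4⟩
    · push Not at h1
      exact Or.inr ⟨c, t, Tree.Sub.refl _, hv, h1⟩

theorem sub_trans {r s t : Tree n m} (h1 : Tree.Sub r s) (h2 : Tree.Sub s t) : Tree.Sub r t := by
  induction h2 with
  | refl => exact h1
  | left α β s t _ ih => exact Tree.Sub.left α β s t ih
  | right α β s t _ ih => exact Tree.Sub.right α β s t ih
  | down c t _ ih => exact Tree.Sub.down c t ih

theorem sub_legal (F : Fin m → Clause n) {s t : Tree n m} (h : Tree.Sub s t) :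
    t.Legal F → s.Legal F := by
  induction h with
  | refl => exact id
  | left α β s t _ ih => exact fun h => ih h.1
  | right α β s t _ ih => exact fun h => ih h.2
  | down c t _ ih => exact fun h => ih h.2.2

theorem sub_divs {s t : Tree n m} (h : Tree.Sub s t) : s.divs ≤ t.divs := by
  induction h with
  | refl => exact le_rfl
  | left α β s' t _ ih =>
    have : (Tree.comb α β s' t).divs = s'.divs + t.divs := rfl
    omega
  | right α β s' t _ ih =>
    have : (Tree.comb α β s' t).divs = s'.divs + t.divs := rfl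
    omega
  | down c t _ ih =>
    have : (Tree.div c t).divs = t.divs + 1 := rfl
    omega

theorem exists_high (F : Fin m → Clause n) {y : Fin n → ℤ} (hy : AxOK F y) (t : Tree n m) :
    ∀ r, Tree.Sub r t → Viol (r.line F) y → ∃ c s, Tree.Sub (.div c s) r ∧
      Viol ((Tree.div c s).line F) y ∧ ∀ s', Tree.Sub s' s → ¬ Viol (s'.line F) y := by
  induction t with
  | clause k =>
    intro r hr hv
    cases hr
    exact absurd hv (hy.1 k)
  | lower v =>
    intro r hr hv
    cases hr
    exact absurd hv (not_viol_lower F v hy)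
  | upper v =>
    intro r hr hv
    cases hr
    exact absurd hv (not_viol_upper F v hy)
  | comb α β s t ihs iht =>
    intro r hr hv
    cases hr with
    | refl =>
      rcases viol_comb F α β s t hv with h | h
      · obtain ⟨c, s₁, h1, h2⟩ := ihs s (Tree.Sub.refl _) h
        exact ⟨c, s₁, Tree.Sub.left α β s t h1, h2⟩
      · obtain ⟨c, s₁, h1, h2⟩ := iht t (Tree.Sub.refl _) h
        exact ⟨c, s₁, Tree.Sub.right α β s t h1, h2⟩
    | left _ _ _ _ h => exact ihs r h hv
    | right _ _ _ _ h => exact iht r h hv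
  | div c t ih =>
    intro r hr hv
    cases hr with
    | refl =>
      by_cases h : ∃ s', Tree.Sub s' t ∧ Viol (s'.line F) y
      · obtain ⟨s', h1, h2⟩ := h
        obtain ⟨c', s₁, h3, h4⟩ := ih s' h1 h2
        exact ⟨c', s₁, sub_trans h3 (Tree.Sub.down c t h1), h4⟩
      · push Not at h
        exact ⟨c, t, Tree.Sub.refl _, hv, h⟩
    | down _ _ h => exact ih r h hv

theorem div_sum (F : Fin m → Clause n) {c : ℕ} {s : Tree n m}
    (hdvd : ∀ v, (c : ℤ) ∣ (s.line F).coef v) (y : Fin n → ℤ) :
    ∑ v, (s.line F).coef v * y v = c * ∑ v, ((Tree.div c s).line F).coef v * y v := by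
  rw [mul_sum]
  refine sum_congr rfl (fun v _ => ?_)
  have h1 : ((Tree.div c s).line F).coef v = (s.line F).coef v / c := rfl
  rw [h1, ← mul_assoc, Int.mul_ediv_cancel' (hdvd v)]

theorem div_rhs (F : Fin m → Clause n) {c : ℕ} {s : Tree n m} (hc : 1 ≤ c) :
    (c : ℤ) * (((Tree.div c s).line F).rhs - 1) < (s.line F).rhs := by
  have h0 : ((Tree.div c s).line F).rhs = ⌈((s.line F).rhs : ℚ) / c⌉ := rfl
  have h1 := Int.ceil_lt_add_one (((s.line F).rhs : ℚ) / c)
  rw [← h0] at h1
  have hc0 : (0 : ℚ) < c := by exact_mod_cast hc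
  have h2 : ((((Tree.div c s).line F).rhs : ℚ) - 1) < ((s.line F).rhs : ℚ) / c := by linarith
  rw [lt_div_iff₀ hc0] at h2
  have h3 : (((((Tree.div c s).line F).rhs - 1) * c : ℤ) : ℚ) < ((s.line F).rhs : ℚ) := by
    push_cast
    exact h2
  have h4 : (((Tree.div c s).line F).rhs - 1) * (c : ℤ) < (s.line F).rhs := by exact_mod_cast h3
  rw [mul_comm]
  exact h4

theorem hTree2 : StTree2 := by
  intro n m F
  refine ⟨?_, fun r s t h1 h2 => sub_trans h1 h2, fun s t h => sub_legal F h,
    fun s t h => sub_divs h, ?_, ?_, ?_⟩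
  · intro t y hy hv
    exact exists_high F hy t t (Tree.Sub.refl _) hv
  · intro L y
    unfold Viol lvL
    constructor <;> intro h <;> omega
  · intro c s y hleg hv hnv
    obtain ⟨hc, hdvd, _⟩ := hleg
    have e1 := div_sum F hdvd y
    have e2 := div_rhs F (s := s) hc
    have hc0 : (0 : ℤ) < c := by exact_mod_cast hc
    unfold Viol at hv hnv
    unfold lvL
    push Not at hnv
    rw [e1] at hnv
    set S := ∑ v, ((Tree.div c s).line F).coef v * y v with hS
    set b' := ((Tree.div c s).line F).rhs with hb'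
    have h2 : (c : ℤ) * (2 * b' - 2) < c * S := by
      have : (c : ℤ) * (2 * b' - 2) = 2 * (c * (b' - 1)) := by ring
      rw [this]
      omega
    have h4 := lt_of_mul_lt_mul_left h2 hc0.le
    omega
  · intro c s y hleg hl
    obtain ⟨hc, hdvd, _⟩ := hleg
    have e1 := div_sum F hdvd y
    have e2 := div_rhs F (s := s) hc
    have hc0 : (0 : ℤ) < c := by exact_mod_cast hc
    unfold Viol
    unfold lvL at hl
    rw [e1]
    set S := ∑ v, ((Tree.div c s).line F).coef v * y v with hS
    set b' := ((Tree.div c s).line F).rhs with hb'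
    have h1 : (c : ℤ) * S ≤ c * (2 * b' - 2) := mul_le_mul_of_nonneg_left (by omega) hc0.le
    have : (c : ℤ) * (2 * b' - 2) = 2 * (c * (b' - 1)) := by ring
    omega

end Helper80.TL
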