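import Pool.Agent.Helper3.TL.M_CLO
import Pool.Agent.Helper80.TL.M_TREE
import Pool.Agent.Helper80.TL.M_AX

/-! Project TL (MP_86d903), module IND (helper80). -/

set_option autoImplicit false

open Finset
open MP86d903 (Valid Lit inside mem_inside pt flip Clause Ineq clauseIneq vsF ngF vsF_card
  pt_add_pt_flip)
open Helper80.SR (Exp Closed Cl Sm inside_mono card_inside_le exists_ext)
open Helper3.TL

namespace Helper80.TL

variable {n m : ℕ}

/-- the number of nodes -/
def nodes : Tree n m → ℕ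
  | .clause _ => 1
  | .lower _ => 1
  | .upper _ => 1
  | .comb _ _ s t => nodes s + nodes t + 1
  | .div _ t => nodes t + 1

theorem sub_nodes {s t : Tree n m} (h : Tree.Sub s t) : nodes s ≤ nodes t := by
  induction h with
  | refl => exact le_rfl
  | left α β s' t _ ih =>
    have : nodes (Tree.comb α β s' t) = nodes s' + nodes t + 1 := rfl
    omega
  | right α β s' t _ ih =>
    have : nodes (Tree.comb α β s' t) = nodes s' + nodes t + 1 := rfl
    omega
  | down c t _ ih =>
    have : nodes (Tree.div c t) = nodes t + 1 := rfl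
    omega

/-- strong closure of a point which keeps a line violated -/
theorem strong_ext (F : Fin m → Clause n) {q R₀ M₀ ψ : ℕ} {A₀ Hd R : Finset (Fin n)}
    {ρ₀ σ : Fin n → Bool} (hE : Exp (vsF F) R₀) (hq : 2 * (M₀ + 1) ≤ q)
    (hR₀ : 2 * (M₀ + 1) + q ≤ R₀) (hψ : 3 * ψ ≤ M₀) (hψ2 : 2 * ψ + q < R₀)
    (hAR : A₀ ⊆ R) (hR : Closed (vsF F) q R) (hval : Valid (vsF F) (ngF F) σ R)
    (hag : ∀ i ∈ A₀, σ i = ρ₀ i) (hXR : (R ∪ Hd).card ≤ R₀)
    (hX : 2 * (R ∪ Hd).card ≤ ψ + 3 * (inside (vsF F) (R ∪ Hd)).card)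
    (L : Ineq n) (hL : Viol L (pt R σ)) :
    ∃ A ρ, SClosed (vsF F) q A ∧ A₀ ⊆ A ∧ Hd ⊆ A ∧ Valid (vsF F) (ngF F) ρ A ∧
      (∀ i ∈ A₀, ρ i = ρ₀ i) ∧ 2 * A.card ≤ ψ + 3 * (inside (vsF F) A).card ∧
      8 * A.card ≤ 19 * ψ ∧ Viol L (pt A ρ) := by
  obtain ⟨A, hSC, hXA, hA1, hA2⟩ := hClo2 (Fin m) (Fin n) (vsF F) q R₀ ψ (R ∪ Hd) hE hψ2 hXR hX
  have hRA : R ⊆ A := subset_union_left.trans hXA
  have hin := card_inside_le hE A (by omega)
  obtain ⟨σ', hσ', hv1, hv2⟩ := exists_ext (vs := vsF F) (ng := ngF F) (B := A) hR (by omega) hval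
  have hsum : ∑ i, L.coef i * pt A σ' i + ∑ i, L.coef i * pt A (MP86d903.flip R σ') i =
      2 * ∑ i, L.coef i * pt R σ i := by
    rw [← sum_add_distrib, mul_sum]
    refine sum_congr rfl (fun i _ => ?_)
    have := pt_add_pt_flip hRA hσ' i
    rw [← mul_add, this]
    ring
  unfold Viol at hL
  by_cases hlt : ∑ i, L.coef i * pt A σ' i < 2 * L.rhs
  · exact ⟨A, σ', hSC, hAR.trans hRA, subset_union_right.trans hXA, hv1,
      fun i hi => by rw [hσ' i (hAR hi), hag i hi], hA1, hA2, hlt⟩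
  · refine ⟨A, MP86d903.flip R σ', hSC, hAR.trans hRA, subset_union_right.trans hXA, hv2,
      ?_, hA1, hA2, ?_⟩
    · intro i hi
      unfold MP86d903.flip
      rw [if_pos (hAR hi), hσ' i (hAR hi), hag i hi]
    · unfold Viol
      omega

theorem hInd (hL : StLocal) : StInd := by
  intro B D
  obtain ⟨κ, hκ⟩ := hL B D
  refine ⟨κ, ?_⟩
  intro n m F q R₀ M₀ P w l kmax A₀ Hd ρ₀ t hE hq hR₀ hM₀ hP hψ hA₀ hsm hval hdeg hleg hline hdiv
  have hTree := hTree2 n m F
  obtain ⟨hhigh, -, -, -, -, -, -⟩ := hTree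
  -- the main claim
  have key : ∀ N : ℕ, ∀ t' : Tree n m, nodes t' ≤ N → Tree.Sub t' t → ∀ k, k ≤ kmax →
      ∀ A ρ, SClosed (vsF F) q A → A₀ ⊆ A → Hd ⊆ A → Valid (vsF F) (ngF F) ρ A →
        (∀ i ∈ A₀, ρ i = ρ₀ i) →
        2 * A.card ≤ P + 2 * κ * (kmax - k) + 3 * (inside (vsF F) A).card →
        8 * A.card ≤ 19 * (P + 2 * κ * (kmax - k)) → Viol (t'.line F) (pt A ρ) →
        2 ^ k ≤ t'.divs := by
    intro N
    induction N with
    | zero =>
      intro t' ht'
      exfalso
      cases t' <;> simp [nodes] at ht'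
    | succ N ih =>
      intro t' hnod hsub k hk A ρ hSC hAA hHA hvA hag hA1 hA2 hviol
      have hmulle : 2 * κ * (kmax - k) ≤ 2 * κ * kmax := Nat.mul_le_mul_left _ (by omega)
      have hclA : Closed (vsF F) q A := hSC.closed'
      have hAc : A.card ≤ 3 * (P + 2 * κ * kmax) := by omega
      have hEnv : Env (vsF F) q D κ A :=
        { three := vsF_card F
          big := ⟨M₀, R₀, hE, hq, hR₀, by omega⟩
          closed := hSC
          deg := fun i hi => hdeg i (fun h => hi (hHA h)) }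
      have hax : AxOK F (pt A ρ) := hAx n m F q A ρ (by omega) hclA hvA
      have hleg' : t'.Legal F := sub_legal F hsub hleg
      have hPt : ∀ R σ, Pt F q κ A ρ R σ → A₀ ⊆ R ∧ Closed (vsF F) q R ∧
          R.card ≤ A.card + κ ∧ Valid (vsF F) (ngF F) σ R ∧ (∀ i ∈ A₀, σ i = ρ₀ i) ∧ A ⊆ R := by
        intro R σ h
        obtain ⟨h1, h2, h3, h4, h5⟩ := h
        have h6 : (R \ A).card + A.card = R.card := card_sdiff_add_card_eq_card h1
        exact ⟨hAA.trans h1, h2, by omega, h4, fun i hi => by rw [h5 i (hAA hi), hag i hi], h1⟩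
      rcases hκ n m F q w A ρ t' hEnv hvA hleg' hviol (by
        intro c s hcs
        rcases hdiv c s (sub_trans hcs hsub) with h | h | h
        · exact Or.inl h
        · exact Or.inr (Or.inl h)
        · refine Or.inr (Or.inr ?_)
          intro R σ hpt
          obtain ⟨h1, h2, h3, h4, h5, _⟩ := hPt R σ hpt
          exact h R σ h1 h2 (by omega) h4 h5) with
        ⟨α, β, s₁, s₂, hcomb, ⟨R₁, σ₁, hp1, hv1⟩, R₂, σ₂, hp2, hv2⟩ |
        ⟨c, s, hcs, hnar, R, σ, hp, hv⟩
      · -- branching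
        have hn1 : nodes (Tree.comb α β s₁ s₂) = nodes s₁ + nodes s₂ + 1 := rfl
        have hn2 := sub_nodes hcomb
        have hd1 : (Tree.comb α β s₁ s₂).divs = s₁.divs + s₂.divs := rfl
        have hd2 := sub_divs hcomb
        have hsub1 : Tree.Sub s₁ t :=
          sub_trans (Tree.Sub.left α β s₁ s₂ (Tree.Sub.refl _)) (sub_trans hcomb hsub)
        have hsub2 : Tree.Sub s₂ t :=
          sub_trans (Tree.Sub.right α β s₁ s₂ (Tree.Sub.refl _)) (sub_trans hcomb hsub)
        cases k with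
        | zero =>
          obtain ⟨c, s, h1, -, -⟩ := hhigh t' (pt A ρ) hax hviol
          have h2 := sub_divs h1
          have h3 : (Tree.div c s).divs = s.divs + 1 := rfl
          rw [pow_zero]
          omega
        | succ k' =>
          have hmul : 2 * κ * (kmax - k') = 2 * κ * (kmax - (k' + 1)) + 2 * κ := by
            have : kmax - k' = kmax - (k' + 1) + 1 := by omega
            rw [this]
            ring
          have hmulle' : 2 * κ * (kmax - k') ≤ 2 * κ * kmax := Nat.mul_le_mul_left _ (by omega)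
          have hstep : ∀ (s' : Tree n m) (R : Finset (Fin n)) (σ : Fin n → Bool),
              Pt F q κ A ρ R σ → Viol (s'.line F) (pt R σ) → nodes s' ≤ N → Tree.Sub s' t →
              2 ^ k' ≤ s'.divs := by
            intro s' R σ hpt hvs hns hss
            obtain ⟨h1, h2, h3, h4, h5, h6⟩ := hPt R σ hpt
            have hRH : R ∪ Hd = R := union_eq_left.mpr (hHA.trans h6)
            have hmon := card_le_card (inside_mono (vs := vsF F) h6)
            obtain ⟨A', ρ', g1, g2, g3, g4, g5, g6, g7, g8⟩ :=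
              strong_ext F (ψ := P + 2 * κ * (kmax - k')) (Hd := Hd) (ρ₀ := ρ₀) hE hq hR₀
                (by omega) (by omega) h1 h2 h4 h5 (by rw [hRH]; omega)
                (by rw [hRH]; omega) (s'.line F) hvs
            exact ih s' hns hss k' (by omega) A' ρ' g1 g2 g3 g4 g5 g6 g7 g8
          have e1 := hstep s₁ R₁ σ₁ hp1 hv1 (by omega) hsub1
          have e2 := hstep s₂ R₂ σ₂ hp2 hv2 (by omega) hsub2
          rw [pow_succ]
          omega
      · -- narrow
        have hn1 : nodes (Tree.div c s) = nodes s + 1 := rfl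
        have hn2 := sub_nodes hcs
        have hd1 : (Tree.div c s).divs = s.divs + 1 := rfl
        have hd2 := sub_divs hcs
        obtain ⟨h1, h2, h3, h4, h5, h6⟩ := hPt R σ hp
        have hRc : R.card ≤ M₀ - w := by omega
        have hin := card_inside_le hE R (by omega)
        obtain ⟨R', σ', g1, g2, g3, g4, g5, g6⟩ :=
          hReset n m F q R₀ M₀ w (M₀ - w) l A₀ ρ₀ c s R σ hE (by omega) hR₀ hA₀ hsm (by omega)
            (by omega) (sub_legal F hcs hleg') hnar h1 h2 ⟨by omega, hin⟩ h4 h5 hv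
        have hR'c := g3.card_le
        have hXc := card_union_le R' Hd
        obtain ⟨A', ρ', f1, f2, f3, f4, f5, f6, f7, f8⟩ :=
          strong_ext F (ψ := P) (Hd := Hd) (ρ₀ := ρ₀) hE hq hR₀
            (by omega) (by omega) g1 g2 g4 g5 (by omega) (by omega) (s.line F) g6
        have e := ih s (by omega) (sub_trans (Tree.Sub.down c s (Tree.Sub.refl _))
          (sub_trans hcs hsub)) kmax le_rfl A' ρ' f1 f2 f3 f4 f5
          (by rw [Nat.sub_self]; omega) (by rw [Nat.sub_self]; omega) f8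
        have h7 : 2 ^ k ≤ 2 ^ kmax := Nat.pow_le_pow_right (by norm_num) hk
        omega
  have hA₀c := hsm.card_le
  have hXc := card_union_le A₀ Hd
  have hviol : Viol (t.line F) (pt A₀ ρ₀) := by
    unfold Viol
    rw [hline]
    simp
  obtain ⟨A', ρ', f1, f2, f3, f4, f5, f6, f7, f8⟩ :=
    strong_ext F (ψ := P) (Hd := Hd) (ρ₀ := ρ₀) hE hq hR₀
      (by omega) (by omega) (subset_refl A₀) hA₀ hval (fun i _ => rfl) (by omega) (by omega)
      (t.line F) hviol
  exact key (nodes t) t le_rfl (Tree.Sub.refl _) kmax le_rfl A' ρ' f1 f2 f3 f4 f5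
    (by rw [Nat.sub_self]; omega) (by rw [Nat.sub_self]; omega) f8

end Helper80.TL
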